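import Mathlib

set_option autoImplicit false

open Set Topology TopologicalSpace Filter

namespace Pool.Agent.H61

/-- Zero-dimensional (possibly empty) space: the clopen sets form a base. -/
def ZD (α : Type*) [TopologicalSpace α] : Prop :=
  ∀ x : α, ∀ U ∈ 𝓝 x, ∃ V : Set α, IsClopen V ∧ x ∈ V ∧ V ⊆ U

section basic

variable {α β : Type*} [TopologicalSpace α] [TopologicalSpace β]

theorem ZD.of_isInducing {f : α → β} (hf : IsInducing f) (h : ZD β) : ZD α := by
  intro x U hU
  rw [hf.nhds_eq_comap, mem_comap] at hU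
  obtain ⟨U', hU', hsub⟩ := hU
  obtain ⟨V, hV, hxV, hVU⟩ := h (f x) U' hU'
  exact ⟨f ⁻¹' V, hV.preimage hf.continuous, hxV, (preimage_mono hVU).trans hsub⟩

theorem ZD.mono {S T : Set α} (hST : S ⊆ T) (h : ZD T) : ZD S :=
  ZD.of_isInducing (IsEmbedding.inclusion hST).isInducing h

theorem ZD.of_isEmpty [IsEmpty α] : ZD α := fun x => isEmptyElim x

/-- Clopen separation of disjoint closed sets in a zero-dimensional Lindelöf space. -/
theorem ZD.clopen_sep [LindelofSpace α] (h : ZD α) {E F : Set α} (hE : IsClosed E)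
    (hF : IsClosed F) (hEF : Disjoint E F) :
    ∃ C : Set α, IsClopen C ∧ E ⊆ C ∧ Disjoint C F := by
  -- for each point a clopen nbhd missing E or missing F
  have h1 : ∀ x : α, ∃ W : Set α, IsClopen W ∧ x ∈ W ∧ (Disjoint W E ∨ Disjoint W F) := by
    intro x
    by_cases hx : x ∈ E
    · have hxF : x ∉ F := fun hxF => (disjoint_left.1 hEF) hx hxF
      obtain ⟨V, hV, hxV, hVU⟩ := h x Fᶜ (hF.isOpen_compl.mem_nhds hxF)
      exact ⟨V, hV, hxV, Or.inr (disjoint_left.2 fun y hy => hVU hy)⟩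
    · obtain ⟨V, hV, hxV, hVU⟩ := h x Eᶜ (hE.isOpen_compl.mem_nhds hx)
      exact ⟨V, hV, hxV, Or.inl (disjoint_left.2 fun y hy => hVU hy)⟩
  choose W hW hxW hWd using h1
  rcases isEmpty_or_nonempty α with hα | hα
  · exact ⟨∅, isClopen_empty, fun x _ => isEmptyElim x, by simp⟩
  -- countable subcover
  obtain ⟨t, htc, ht⟩ : ∃ t : Set α, t.Countable ∧ (⋃ x ∈ t, W x) = univ := by
    obtain ⟨t, htc, ht⟩ := countable_cover_nhds (fun x => (hW x).isOpen.mem_nhds (hxW x))
    exact ⟨t, htc, ht⟩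
  have htne : t.Nonempty := by
    by_contra hne
    rw [not_nonempty_iff_eq_empty] at hne
    subst hne
    obtain ⟨x⟩ := hα
    have : x ∈ (⋃ x ∈ (∅ : Set α), W x) := by rw [ht]; trivial
    simp at this
  obtain ⟨g, hg⟩ := htc.exists_eq_range htne
  -- disjointify
  let V : ℕ → Set α := fun n => W (g n) \ ⋃ m ∈ Finset.range n, W (g m)
  have hVcl : ∀ n, IsClopen (V n) := fun n =>
    (hW _).diff ((Finset.range n).finite_toSet.isClopen_biUnion fun m _ => hW (g m))
  have hVcov : ∀ x, ∃ n, x ∈ V n := by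
    intro x
    have hx : x ∈ ⋃ y ∈ t, W y := by rw [ht]; trivial
    simp only [mem_iUnion, exists_prop] at hx
    obtain ⟨y, hy, hxy⟩ := hx
    rw [hg] at hy
    obtain ⟨n, rfl⟩ := hy
    classical
    have hex : ∃ n, x ∈ W (g n) := ⟨n, hxy⟩
    refine ⟨Nat.find hex, Nat.find_spec hex, ?_⟩
    simp only [mem_iUnion, Finset.mem_range, exists_prop, not_exists, not_and]
    intro m hm
    exact Nat.find_min hex hm
  have hVdis : ∀ m n x, x ∈ V m → x ∈ V n → m = n := by
    intro m n x hm hn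
    rcases lt_trichotomy m n with hlt | heq | hlt
    · exact absurd (mem_iUnion₂.2 ⟨m, Finset.mem_range.2 hlt, hm.1⟩) hn.2
    · exact heq
    · exact absurd (mem_iUnion₂.2 ⟨n, Finset.mem_range.2 hlt, hn.1⟩) hm.2
  let C : Set α := ⋃ n ∈ {n | Disjoint (W (g n)) F}, V n
  have hCo : IsOpen C := isOpen_biUnion fun n _ => (hVcl n).isOpen
  have hCc : IsOpen Cᶜ := by
    have : Cᶜ = ⋃ n ∈ {n | ¬ Disjoint (W (g n)) F}, V n := by
      ext x
      simp only [C, mem_compl_iff, mem_iUnion, mem_ofPred_eq, exists_prop, not_exists, not_and]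
      constructor
      · intro hx
        obtain ⟨n, hn⟩ := hVcov x
        exact ⟨n, fun hd => hx n hd hn, hn⟩
      · rintro ⟨n, hnd, hn⟩ m hmd hm
        exact hnd (hVdis m n x hm hn ▸ hmd)
    rw [this]
    exact isOpen_biUnion fun n _ => (hVcl n).isOpen
  refine ⟨C, ⟨⟨hCc⟩, hCo⟩, ?_, ?_⟩
  · intro x hx
    obtain ⟨n, hn⟩ := hVcov x
    simp only [C, mem_iUnion, mem_ofPred_eq, exists_prop]
    refine ⟨n, ?_, hn⟩
    rcases hWd (g n) with h1 | h1
    · exact absurd hx (disjoint_left.1 h1 hn.1)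
    · exact h1
  · rw [disjoint_left]
    intro x hx hxF
    simp only [C, mem_iUnion, mem_ofPred_eq, exists_prop] at hx
    obtain ⟨n, hn, hxn⟩ := hx
    exact disjoint_left.1 hn hxn.1 hxF

/-- Converse: clopen separation of points from closed sets gives `ZD`. -/
theorem ZD.of_sep (h : ∀ (x : α) (F : Set α), IsClosed F → x ∉ F →
    ∃ C : Set α, IsClopen C ∧ x ∈ C ∧ Disjoint C F) : ZD α := by
  intro x U hU
  obtain ⟨C, hC, hxC, hCF⟩ := h x (interior U)ᶜ isOpen_interior.isClosed_compl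
    (by simpa using mem_interior_iff_mem_nhds.2 hU)
  refine ⟨C, hC, hxC, fun y hy => ?_⟩
  by_contra hyU
  exact disjoint_left.1 hCF hy (fun h => hyU (interior_subset h))

end basic

section sep

variable {X : Type*} [TopologicalSpace X] [SecondCountableTopology X] [T3Space X]

/-- Partition lemma: disjoint closed sets are separated by a partition avoiding a given
zero-dimensional subspace. -/
theorem ZD.partition {S : Set X} (hS : ZD S) {A B : Set X} (hA : IsClosed A)
    (hB : IsClosed B) (hAB : Disjoint A B) :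
    ∃ V : Set X, IsOpen V ∧ A ⊆ V ∧ Disjoint (closure V) B ∧ Disjoint (frontier V) S := by
  have : CompletelyNormalSpace X := inferInstance
  obtain ⟨UA, hUAo, hAUA, hUAB⟩ : ∃ U : Set X, IsOpen U ∧ A ⊆ U ∧ closure U ⊆ Bᶜ :=
    normal_exists_closure_subset hA hB.isOpen_compl (disjoint_left.1 hAB)
  obtain ⟨UB, hUBo, hBUB, hUBA⟩ : ∃ U : Set X, IsOpen U ∧ B ⊆ U ∧ closure U ⊆ (closure UA)ᶜ :=
    normal_exists_closure_subset hB isClosed_closure.isOpen_compl
      (fun x hx hx' => hUAB hx' hx)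
  -- clopen partition of S
  have : LindelofSpace S := inferInstance
  obtain ⟨C, hC, hEC, hCF⟩ := hS.clopen_sep (E := Subtype.val ⁻¹' closure UA)
    (F := Subtype.val ⁻¹' closure UB) (isClosed_closure.preimage continuous_subtype_val)
    (isClosed_closure.preimage continuous_subtype_val)
    (disjoint_left.2 fun x hx hx' => hUBA hx' hx)
  let C1 : Set X := Subtype.val '' C
  let D1 : Set X := Subtype.val '' Cᶜ
  -- separation facts
  have hsep : ∀ (P : Set S), IsClosed P → ∀ x : S, x ∉ P → (x : X) ∉ closure (Subtype.val '' P) := by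
    intro P hP x hx hcl
    apply hx
    have : x ∈ closure P := by
      rw [closure_subtype]
      exact hcl
    rwa [hP.closure_eq] at this
  have h1 : Disjoint (closure (A ∪ C1)) (B ∪ D1) := by
    rw [closure_union, hA.closure_eq, disjoint_left]
    rintro x (hxA | hxC) (hxB | hxD)
    · exact disjoint_left.1 hAB hxA hxB
    · obtain ⟨y, hy, rfl⟩ := hxD
      exact hy (hEC (subset_closure (hAUA hxA)))
    · have : closure C1 ⊆ UBᶜ := by
        apply closure_minimal _ hUBo.isClosed_compl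
        rintro _ ⟨y, hy, rfl⟩ hyU
        exact disjoint_left.1 hCF hy (subset_closure hyU)
      exact this hxC (hBUB hxB)
    · obtain ⟨y, hy, rfl⟩ := hxD
      exact hsep C hC.isClosed y hy hxC
  have h2 : Disjoint (A ∪ C1) (closure (B ∪ D1)) := by
    rw [closure_union, hB.closure_eq, disjoint_left]
    rintro x (hxA | hxC) (hxB | hxD)
    · exact disjoint_left.1 hAB hxA hxB
    · have : closure D1 ⊆ UAᶜ := by
        apply closure_minimal _ hUAo.isClosed_compl
        rintro _ ⟨y, hy, rfl⟩ hyU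
        exact hy (hEC (subset_closure hyU))
      exact this hxD (hAUA hxA)
    · obtain ⟨y, hy, rfl⟩ := hxC
      exact disjoint_left.1 hCF hy (subset_closure (hBUB hxB))
    · obtain ⟨y, hy, rfl⟩ := hxC
      exact hsep Cᶜ hC.compl.isClosed y (fun h => h hy) hxD
  have h3 := completely_normal h1 h2
  rw [← separatedNhds_iff_disjoint] at h3
  obtain ⟨V, W, hVo, hWo, hV, hW, hVW⟩ := h3
  refine ⟨V, hVo, subset_union_left.trans hV, ?_, ?_⟩
  · have : closure V ⊆ Wᶜ := closure_minimal (fun x hx hx' => disjoint_left.1 hVW hx hx')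
      hWo.isClosed_compl
    exact disjoint_left.2 fun x hx hxB => this hx (hW (Or.inl hxB))
  · rw [disjoint_left]
    intro x hx hxS
    have hclV : closure V ⊆ Wᶜ := closure_minimal (fun x hx hx' => disjoint_left.1 hVW hx hx')
      hWo.isClosed_compl
    by_cases hxC : (⟨x, hxS⟩ : S) ∈ C
    · have : x ∈ V := hV (Or.inr ⟨⟨x, hxS⟩, hxC, rfl⟩)
      rw [hVo.frontier_eq] at hx
      exact hx.2 this
    · have : x ∈ W := hW (Or.inr ⟨⟨x, hxS⟩, hxC, rfl⟩)
      exact hclV hx.1 this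

/-- Pointwise version. -/
theorem ZD.partition_nhds {S : Set X} (hS : ZD S) (x : X) (U : Set X) (hU : U ∈ 𝓝 x) :
    ∃ V : Set X, IsOpen V ∧ x ∈ V ∧ closure V ⊆ U ∧ Disjoint (frontier V) S := by
  obtain ⟨V, hVo, hxV, hVU, hVS⟩ := hS.partition (A := {x}) (B := (interior U)ᶜ)
    isClosed_singleton isOpen_interior.isClosed_compl
    (by simpa using mem_interior_iff_mem_nhds.2 hU)
  refine ⟨V, hVo, by simpa using hxV, fun y hy => ?_, hVS⟩
  by_contra hyU
  exact disjoint_left.1 hVU hy (fun h => hyU (interior_subset h))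

/-- Enlargement: a zero-dimensional subspace lies in a zero-dimensional Gδ subspace. -/
theorem ZD.enlarge {S : Set X} (hS : ZD S) :
    ∃ G : Set X, IsGδ G ∧ S ⊆ G ∧ ZD G := by
  -- a countable family of open sets with frontiers missing `S`, containing a base
  let b := countableBasis X
  have hb := isBasis_countableBasis X
  have hex : ∀ p : (Set X) × (Set X), ∃ V : Set X, IsOpen V ∧ Disjoint (frontier V) S ∧
      (closure p.1 ⊆ p.2 → IsOpen p.2 → p.1 ⊆ V ∧ V ⊆ p.2) := by
    intro p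
    by_cases hp : closure p.1 ⊆ p.2 ∧ IsOpen p.2
    · obtain ⟨V, hVo, hAV, hVB, hVS⟩ := hS.partition (A := closure p.1) (B := p.2ᶜ)
        isClosed_closure hp.2.isClosed_compl (disjoint_left.2 fun x hx hx' => hx' (hp.1 hx))
      refine ⟨V, hVo, hVS, fun _ _ => ⟨subset_closure.trans hAV, fun x hx => ?_⟩⟩
      by_contra hx'
      exact disjoint_left.1 hVB (subset_closure hx) hx'
    · exact ⟨∅, isOpen_empty, by simp, fun h1 h2 => absurd ⟨h1, h2⟩ hp⟩
  choose V hVo hVS hV using hex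
  let N : Set X := ⋃ p ∈ b ×ˢ b, frontier (V p)
  have hcount : (b ×ˢ b).Countable := (countable_countableBasis X).prod (countable_countableBasis X)
  refine ⟨Nᶜ, ?_, ?_, ?_⟩
  · have : Nᶜ = ⋂ p ∈ b ×ˢ b, (frontier (V p))ᶜ := by simp [N]
    rw [this]
    exact IsGδ.biInter_of_isOpen hcount fun p _ => isClosed_frontier.isOpen_compl
  · intro x hx hxN
    simp only [N, mem_iUnion] at hxN
    obtain ⟨p, _, hxp⟩ := hxN
    exact disjoint_left.1 (hVS p) hxp hx
  · intro x U hU
    rw [nhds_subtype_eq_comap, mem_comap] at hU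
    obtain ⟨U', hU', hsub⟩ := hU
    obtain ⟨B, hB, hxB, hBU⟩ := hb.mem_nhds_iff.1 hU'
    obtain ⟨K, hK, hKc, hKB⟩ := exists_mem_nhds_isClosed_subset ((hb.isOpen hB).mem_nhds hxB)
    obtain ⟨A, hA, hxA, hAK⟩ := hb.mem_nhds_iff.1 hK
    have hclA : closure A ⊆ B := (closure_minimal hAK hKc).trans hKB
    obtain ⟨h1, h2⟩ := hV (A, B) hclA (hb.isOpen hB)
    have hfr : frontier (V (A, B)) ⊆ N := fun y hy =>
      mem_iUnion₂.2 ⟨(A, B), ⟨hA, hB⟩, hy⟩
    refine ⟨Subtype.val ⁻¹' V (A, B), ⟨?_, (hVo _).preimage continuous_subtype_val⟩, h1 hxA,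
      fun y hy => hsub (hBU (h2 hy))⟩
    have : (Subtype.val ⁻¹' V (A, B) : Set (Nᶜ : Set X)) = Subtype.val ⁻¹' closure (V (A, B)) := by
      ext y
      simp only [mem_preimage]
      refine ⟨fun h => subset_closure h, fun h => ?_⟩
      by_contra hy
      exact y.2 (hfr ((hVo _).frontier_eq ▸ ⟨h, hy⟩))
    rw [this]
    exact isClosed_closure.preimage continuous_subtype_val

end sep

section sum

variable {X : Type*} [TopologicalSpace X] [SecondCountableTopology X] [T3Space X]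

/-- One step of the sum theorem. -/
theorem ZD.sum_step {F : Set X} (hFc : IsClosed F) (hF : ZD F) {A B : Set X} (hA : IsClosed A)
    (hB : IsClosed B) (hAB : Disjoint A B) :
    ∃ U W : Set X, IsOpen U ∧ IsOpen W ∧ A ⊆ U ∧ B ⊆ W ∧ Disjoint (closure U) (closure W) ∧
      F ⊆ U ∪ W := by
  obtain ⟨C, hC, hAC, hCB⟩ := hF.clopen_sep (E := Subtype.val ⁻¹' A) (F := Subtype.val ⁻¹' B)
    (hA.preimage continuous_subtype_val) (hB.preimage continuous_subtype_val)
    (disjoint_left.2 fun x hx hx' => disjoint_left.1 hAB hx hx')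
  let C1 : Set X := Subtype.val '' C
  let D1 : Set X := Subtype.val '' Cᶜ
  have hC1 : IsClosed C1 := hFc.isClosedEmbedding_subtypeVal.isClosedMap _ hC.isClosed
  have hD1 : IsClosed D1 := hFc.isClosedEmbedding_subtypeVal.isClosedMap _ hC.compl.isClosed
  have hdis : Disjoint (A ∪ C1) (B ∪ D1) := by
    rw [disjoint_left]
    rintro x (hxA | hxC) (hxB | hxD)
    · exact disjoint_left.1 hAB hxA hxB
    · obtain ⟨y, hy, rfl⟩ := hxD
      exact hy (hAC hxA)
    · obtain ⟨y, hy, rfl⟩ := hxC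
      exact disjoint_left.1 hCB hy hxB
    · obtain ⟨y, hy, rfl⟩ := hxC
      obtain ⟨z, hz, hzy⟩ := hxD
      rw [Subtype.ext hzy] at hz
      exact hz hy
  obtain ⟨U, hUo, hAU, hUB⟩ : ∃ U : Set X, IsOpen U ∧ A ∪ C1 ⊆ U ∧ closure U ⊆ (B ∪ D1)ᶜ :=
    normal_exists_closure_subset (hA.union hC1) (hB.union hD1).isOpen_compl
      (disjoint_left.1 hdis)
  obtain ⟨W, hWo, hBW, hWU⟩ : ∃ W : Set X, IsOpen W ∧ B ∪ D1 ⊆ W ∧ closure W ⊆ (closure U)ᶜ :=
    normal_exists_closure_subset (hB.union hD1) isClosed_closure.isOpen_compl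
      (fun x hx hx' => hUB hx' hx)
  refine ⟨U, W, hUo, hWo, subset_union_left.trans hAU, subset_union_left.trans hBW,
    disjoint_left.2 fun x hx hx' => hWU hx' hx, fun x hx => ?_⟩
  by_cases hxC : (⟨x, hx⟩ : F) ∈ C
  · exact Or.inl (hAU (Or.inr ⟨⟨x, hx⟩, hxC, rfl⟩))
  · exact Or.inr (hBW (Or.inr ⟨⟨x, hx⟩, hxC, rfl⟩))

/-- Countable closed sum theorem in dimension zero. -/
theorem ZD.iUnion_closed {F : ℕ → Set X} (hFc : ∀ n, IsClosed (F n)) (hF : ∀ n, ZD (F n))
    (hcov : (⋃ n, F n) = univ) : ZD X := by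
  apply ZD.of_sep
  intro x E hE hxE
  -- pairs of disjoint closed sets
  let P : Type _ := {p : Set X × Set X // Disjoint (closure p.1) (closure p.2)}
  have hstep : ∀ (n : ℕ) (p : P), ∃ q : P, IsOpen q.1.1 ∧ IsOpen q.1.2 ∧
      closure p.1.1 ⊆ q.1.1 ∧ closure p.1.2 ⊆ q.1.2 ∧ F n ⊆ q.1.1 ∪ q.1.2 := by
    intro n p
    obtain ⟨U, W, hU, hW, h1, h2, h3, h4⟩ := ZD.sum_step (hFc n) (hF n)
      (isClosed_closure (s := p.1.1)) (isClosed_closure (s := p.1.2)) p.2
    exact ⟨⟨(U, W), h3⟩, hU, hW, h1, h2, h4⟩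
  choose g hg1 hg2 hg3 hg4 hg5 using hstep
  let p0 : P := ⟨({x}, E), by
    simp only [closure_singleton, hE.closure_eq]
    simpa using hxE⟩
  let p : ℕ → P := fun n => Nat.rec p0 (fun n q => g n q) n
  have hp0 : p 0 = p0 := rfl
  have hps : ∀ n, p (n + 1) = g n (p n) := fun n => rfl
  let U : Set X := ⋃ n, (p (n + 1)).1.1
  let W : Set X := ⋃ n, (p (n + 1)).1.2
  have hUo : IsOpen U := isOpen_iUnion fun n => by rw [hps]; exact hg1 _ _
  have hWo : IsOpen W := isOpen_iUnion fun n => by rw [hps]; exact hg2 _ _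
  have mono1 : Monotone fun n => (p n).1.1 := monotone_nat_of_le_succ fun n => by
    rw [hps]; exact subset_closure.trans (hg3 _ _)
  have mono2 : Monotone fun n => (p n).1.2 := monotone_nat_of_le_succ fun n => by
    rw [hps]; exact subset_closure.trans (hg4 _ _)
  have hUW : Disjoint U W := by
    rw [disjoint_left]
    intro y hy hy'
    simp only [U, W, mem_iUnion] at hy hy'
    obtain ⟨m, hm⟩ := hy
    obtain ⟨n, hn⟩ := hy'
    have h1 : y ∈ (p (max (m + 1) (n + 1))).1.1 := mono1 (le_max_left _ _) hm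
    have h2 : y ∈ (p (max (m + 1) (n + 1))).1.2 := mono2 (le_max_right _ _) hn
    exact disjoint_left.1 (p (max (m + 1) (n + 1))).2 (subset_closure h1) (subset_closure h2)
  have hUWu : U ∪ W = univ := by
    rw [eq_univ_iff_forall]
    intro y
    have hy : y ∈ ⋃ n, F n := by rw [hcov]; trivial
    obtain ⟨n, hn⟩ := mem_iUnion.1 hy
    rcases hg5 n (p n) hn with h | h
    · exact Or.inl (mem_iUnion.2 ⟨n, h⟩)
    · exact Or.inr (mem_iUnion.2 ⟨n, h⟩)
  have hUc : Uᶜ = W := by
    ext y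
    refine ⟨fun hy => ?_, fun hy hy' => disjoint_left.1 hUW hy' hy⟩
    rcases (hUWu ▸ mem_univ y : y ∈ U ∪ W) with h | h
    · exact absurd h hy
    · exact h
  refine ⟨U, ⟨⟨hUc ▸ hWo⟩, hUo⟩, ?_, ?_⟩
  · refine mem_iUnion.2 ⟨0, ?_⟩
    rw [hps]
    exact hg3 _ _ (subset_closure (by rw [hp0]; rfl))
  · rw [disjoint_left]
    intro y hy hyE
    refine disjoint_left.1 hUW hy (mem_iUnion.2 ⟨0, ?_⟩)
    rw [hps]
    exact hg4 _ _ (subset_closure (by rw [hp0]; exact hyE))

/-- Countable closed sum theorem, for subsets: a set `S` covered by countably many closed sets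
`F n` of `X` with each `S ∩ F n` zero-dimensional is zero-dimensional. -/
theorem ZD.of_closed_cover {S : Set X} {F : ℕ → Set X} (hFc : ∀ n, IsClosed (F n))
    (hF : ∀ n, ZD (S ∩ F n : Set X)) (hcov : S ⊆ ⋃ n, F n) : ZD S := by
  refine ZD.iUnion_closed (X := S) (F := fun n => Subtype.val ⁻¹' F n)
    (fun n => (hFc n).preimage continuous_subtype_val) (fun n => ?_) ?_
  · let j : (Subtype.val ⁻¹' F n : Set S) → (S ∩ F n : Set X) := fun y => ⟨y.1.1, y.1.2, y.2⟩
    have hj : IsInducing j := by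
      have h1 : IsInducing (Subtype.val ∘ j) := by
        have : (Subtype.val ∘ j) = (Subtype.val : S → X) ∘ (Subtype.val) := rfl
        rw [this]
        exact IsInducing.subtypeVal.comp IsInducing.subtypeVal
      exact IsInducing.subtypeVal.of_comp_iff.1 h1
    exact (hF n).of_isInducing hj
  · rw [eq_univ_iff_forall]
    intro y
    obtain ⟨n, hn⟩ := mem_iUnion.1 (hcov y.2)
    exact mem_iUnion.2 ⟨n, hn⟩

end sum

end Pool.Agent.H61
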