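import Mathlib
import Pool.Agent.H61.ZeroDim

set_option autoImplicit false

open Set Topology TopologicalSpace Filter

namespace Pool.Agent.H61

/-- `α` is a union of `n` zero-dimensional subspaces. -/
def UZ (n : ℕ) (α : Type*) [TopologicalSpace α] : Prop :=
  ∃ A : Fin n → Set α, (⋃ i, A i) = univ ∧ ∀ i, ZD (A i)

/-- The subset `S` is covered by `n` zero-dimensional subspaces. -/
def USet {X : Type*} [TopologicalSpace X] (n : ℕ) (S : Set X) : Prop :=
  ∃ A : Fin n → Set X, S ⊆ (⋃ i, A i) ∧ ∀ i, ZD (A i)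

section

variable {X : Type*} [TopologicalSpace X]

theorem ZD.image_val {S : Set X} {A : Set S} (h : ZD A) : ZD (Subtype.val '' A : Set X) := by
  have hmem : ∀ y : (Subtype.val '' A : Set X), ∃ z : A, (z.1 : X) = y.1 := by
    rintro ⟨y, z, hz, rfl⟩
    exact ⟨⟨z, hz⟩, rfl⟩
  choose j hj using hmem
  refine h.of_isInducing (f := j) ?_
  have h1 : IsInducing ((Subtype.val : S → X) ∘ (Subtype.val : A → S) ∘ j) := by
    have : ((Subtype.val : S → X) ∘ (Subtype.val : A → S) ∘ j) = Subtype.val := by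
      funext y; exact hj y
    rw [this]
    exact IsInducing.subtypeVal
  exact (IsInducing.subtypeVal.comp IsInducing.subtypeVal).of_comp_iff.1 h1

theorem ZD.preimage_val {S : Set X} {A : Set X} (h : ZD A) : ZD (Subtype.val ⁻¹' A : Set S) := by
  let j : (Subtype.val ⁻¹' A : Set S) → A := fun y => ⟨y.1.1, y.2⟩
  refine h.of_isInducing (f := j) ?_
  have h1 : IsInducing (Subtype.val ∘ j) := by
    have : (Subtype.val ∘ j) = (Subtype.val : S → X) ∘ (Subtype.val) := rfl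
    rw [this]
    exact IsInducing.subtypeVal.comp IsInducing.subtypeVal
  exact IsInducing.subtypeVal.of_comp_iff.1 h1

theorem uz_coe_iff {n : ℕ} {S : Set X} : UZ n S ↔ USet n S := by
  constructor
  · rintro ⟨A, hA, hZ⟩
    refine ⟨fun i => Subtype.val '' A i, fun x hx => ?_, fun i => (hZ i).image_val⟩
    have : (⟨x, hx⟩ : S) ∈ ⋃ i, A i := by rw [hA]; trivial
    obtain ⟨i, hi⟩ := mem_iUnion.1 this
    exact mem_iUnion.2 ⟨i, ⟨x, hx⟩, hi, rfl⟩
  · rintro ⟨A, hA, hZ⟩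
    refine ⟨fun i => Subtype.val ⁻¹' A i, eq_univ_iff_forall.2 fun x => ?_,
      fun i => (hZ i).preimage_val⟩
    obtain ⟨i, hi⟩ := mem_iUnion.1 (hA x.2)
    exact mem_iUnion.2 ⟨i, hi⟩

theorem USet.mono {n : ℕ} {S T : Set X} (hST : S ⊆ T) (h : USet n T) : USet n S := by
  obtain ⟨A, hA, hZ⟩ := h
  exact ⟨A, hST.trans hA, hZ⟩

theorem uset_univ_iff {n : ℕ} : USet n (univ : Set X) ↔ UZ n X := by
  constructor
  · rintro ⟨A, hA, hZ⟩
    exact ⟨A, univ_subset_iff.1 hA, hZ⟩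
  · rintro ⟨A, hA, hZ⟩
    exact ⟨A, hA.ge, hZ⟩

theorem USet.of_isEmpty_diff {n : ℕ} {S Z : Set X} (hZ : ZD Z) (h : USet n (S \ Z)) :
    USet (n + 1) S := by
  obtain ⟨A, hA, hAZ⟩ := h
  refine ⟨Fin.cons Z A, fun x hx => ?_, fun i => ?_⟩
  · by_cases hxZ : x ∈ Z
    · exact mem_iUnion.2 ⟨0, by simpa using hxZ⟩
    · obtain ⟨i, hi⟩ := mem_iUnion.1 (hA ⟨hx, hxZ⟩)
      exact mem_iUnion.2 ⟨i.succ, by simpa using hi⟩
  · refine Fin.cases ?_ (fun i => ?_) i
    · exact hZ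
    · exact hAZ i

theorem USet.exists_zd {n : ℕ} {S : Set X} (h : USet (n + 1) S) :
    ∃ Z : Set X, ZD Z ∧ USet n (S \ Z) := by
  obtain ⟨A, hA, hAZ⟩ := h
  refine ⟨A 0, hAZ 0, fun i => A i.succ, fun x hx => ?_, fun i => hAZ _⟩
  obtain ⟨i, hi⟩ := mem_iUnion.1 (hA hx.1)
  rcases Fin.eq_zero_or_eq_succ i with rfl | ⟨j, rfl⟩
  · exact absurd hi hx.2
  · exact mem_iUnion.2 ⟨j, hi⟩

end

section

variable {X : Type*} [TopologicalSpace X] [SecondCountableTopology X] [MetrizableSpace X]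

theorem ZD.of_closed_cover' {ι : Type*} [Countable ι] {S : Set X} {F : ι → Set X}
    (hFc : ∀ n, IsClosed (F n)) (hF : ∀ n, ZD (S ∩ F n : Set X)) (hcov : S ⊆ ⋃ n, F n) :
    ZD S := by
  rcases isEmpty_or_nonempty ι with hι | hι
  · have hS : S = ∅ := by
      rw [eq_empty_iff_forall_notMem]
      intro x hx
      have := hcov hx
      simp at this
    subst hS
    exact ZD.of_isEmpty
  · obtain ⟨g, hg⟩ := exists_surjective_nat ι
    refine ZD.of_closed_cover (F := fun n => F (g n)) (fun n => hFc _) (fun n => hF _) ?_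
    intro x hx
    obtain ⟨i, hi⟩ := mem_iUnion.1 (hcov hx)
    obtain ⟨n, rfl⟩ := hg i
    exact mem_iUnion.2 ⟨n, hi⟩

/-- Countable closed sum theorem for unions of `n` zero-dimensional sets. -/
theorem USet.iUnion_closed {n : ℕ} {S : ℕ → Set X} (hSc : ∀ k, IsClosed (S k))
    (hS : ∀ k, USet n (S k)) : USet n (⋃ k, S k) := by
  choose A hA hAZ using hS
  -- disjointify
  let E : ℕ → Set X := fun k => S k \ ⋃ j ∈ Finset.range k, S j
  have hEsub : ∀ k, E k ⊆ S k := fun k => sdiff_subset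
  have hopen : ∀ k, IsOpen (⋃ j ∈ Finset.range k, S j)ᶜ := fun k =>
    (isClosed_biUnion_finset fun j _ => hSc j).isOpen_compl
  have hcov : ∀ x ∈ ⋃ k, S k, ∃ k, x ∈ E k := by
    intro x hx
    have hex : ∃ k, x ∈ S k := mem_iUnion.1 hx
    classical
    refine ⟨Nat.find hex, Nat.find_spec hex, ?_⟩
    simp only [mem_iUnion, Finset.mem_range, exists_prop, not_exists, not_and]
    intro m hm
    exact Nat.find_min hex hm
  have hEdis : ∀ m k x, x ∈ E m → x ∈ E k → m = k := by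
    intro m n x hm hn
    rcases lt_trichotomy m n with hlt | heq | hlt
    · exact absurd (mem_iUnion₂.2 ⟨m, Finset.mem_range.2 hlt, hm.1⟩) hn.2
    · exact heq
    · exact absurd (mem_iUnion₂.2 ⟨n, Finset.mem_range.2 hlt, hn.1⟩) hm.2
  let := metrizableSpaceMetric X
  have hF : ∀ k, ∃ F : ℕ → Set X, (∀ m, IsClosed (F m)) ∧
      (⋃ m, F m) = (⋃ j ∈ Finset.range k, S j)ᶜ := by
    intro k
    obtain ⟨F, h1, h2, h3, h4⟩ := (hopen k).exists_iUnion_isClosed
    exact ⟨F, h1, h3⟩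
  choose F hFc hFu using hF
  have hEeq : ∀ k, E k = ⋃ m, S k ∩ F k m := by
    intro k
    rw [← inter_iUnion, hFu]
    rfl
  refine ⟨fun i => ⋃ k, A k i ∩ E k, fun x hx => ?_, fun i => ?_⟩
  · obtain ⟨k, hk⟩ := hcov x hx
    obtain ⟨i, hi⟩ := mem_iUnion.1 (hA k (hEsub k hk))
    exact mem_iUnion.2 ⟨i, mem_iUnion.2 ⟨k, hi, hk⟩⟩
  · refine ZD.of_closed_cover' (ι := ℕ × ℕ) (F := fun p => S p.1 ∩ F p.1 p.2)
      (fun p => (hSc _).inter (hFc _ _)) (fun p => ?_) ?_
    · refine (hAZ p.1 i).mono ?_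
      rintro x ⟨hx, hx2⟩
      obtain ⟨k, hk, hkE⟩ := mem_iUnion.1 hx
      have hxE : x ∈ E p.1 := by rw [hEeq]; exact mem_iUnion.2 ⟨p.2, hx2⟩
      rw [hEdis _ _ _ hxE hkE]
      exact hk
    · intro x hx
      obtain ⟨k, hk, hkE⟩ := mem_iUnion.1 hx
      rw [hEeq] at hkE
      obtain ⟨m, hm⟩ := mem_iUnion.1 hkE
      exact mem_iUnion.2 ⟨(k, m), hm⟩

theorem USet.biUnion_closed {n : ℕ} {ι : Type*} {s : Set ι} (hs : s.Countable) {S : ι → Set X}
    (hSc : ∀ k ∈ s, IsClosed (S k)) (hS : ∀ k ∈ s, USet n (S k)) : USet n (⋃ k ∈ s, S k) := by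
  rcases s.eq_empty_or_nonempty with rfl | hne
  · refine ⟨fun _ => ∅, by simp, fun _ => ZD.of_isEmpty⟩
  · obtain ⟨g, rfl⟩ := hs.exists_eq_range hne
    rw [biUnion_range]
    exact USet.iUnion_closed (fun k => hSc _ ⟨k, rfl⟩) (fun k => hS _ ⟨k, rfl⟩)

/-- If a property of open sets is satisfied by arbitrarily small neighbourhoods of each point and
implies that the frontier is a union of `n` zero-dimensional sets, then the space is a union
of `n + 1` zero-dimensional sets. -/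
theorem UZ.of_base {n : ℕ} (h : ∀ x : X, ∀ U ∈ 𝓝 x, ∃ V : Set X, IsOpen V ∧ x ∈ V ∧ V ⊆ U ∧
    UZ n (frontier V)) : UZ (n + 1) X := by
  rw [← uset_univ_iff]
  let b := countableBasis X
  have hb := isBasis_countableBasis X
  have hex : ∀ p : (Set X) × (Set X), ∃ V : Set X, IsOpen V ∧ USet n (frontier V) ∧
      ((∃ V' : Set X, IsOpen V' ∧ USet n (frontier V') ∧ p.1 ⊆ V' ∧ V' ⊆ p.2) →
        p.1 ⊆ V ∧ V ⊆ p.2) := by
    intro p
    by_cases hp : (∃ V' : Set X, IsOpen V' ∧ USet n (frontier V') ∧ p.1 ⊆ V' ∧ V' ⊆ p.2)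
    · obtain ⟨V', h1, h2, h3⟩ := hp
      exact ⟨V', h1, h2, fun _ => h3⟩
    · refine ⟨∅, isOpen_empty, ?_, fun h => absurd h hp⟩
      simp only [frontier_empty]
      exact ⟨fun _ => ∅, by simp, fun _ => ZD.of_isEmpty⟩
  choose V hVo hVU hV using hex
  let N : Set X := ⋃ p ∈ b ×ˢ b, frontier (V p)
  have hcount : (b ×ˢ b).Countable := (countable_countableBasis X).prod (countable_countableBasis X)
  have hN : USet n N := USet.biUnion_closed hcount (fun _ _ => isClosed_frontier)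
    (fun p _ => hVU p)
  refine USet.of_isEmpty_diff (Z := Nᶜ) ?_ (by simpa using hN)
  intro x U hU
  rw [nhds_subtype_eq_comap, mem_comap] at hU
  obtain ⟨U', hU', hsub⟩ := hU
  obtain ⟨B, hB, hxB, hBU⟩ := hb.mem_nhds_iff.1 hU'
  obtain ⟨V', hV'o, hxV', hV'B, hV'f⟩ := h x B ((hb.isOpen hB).mem_nhds hxB)
  obtain ⟨A, hA, hxA, hAV'⟩ := hb.mem_nhds_iff.1 (hV'o.mem_nhds hxV')
  obtain ⟨h1, h2⟩ := hV (A, B) ⟨V', hV'o, uz_coe_iff.1 hV'f, hAV', hV'B⟩
  have hfr : frontier (V (A, B)) ⊆ N := fun y hy =>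
    mem_iUnion₂.2 ⟨(A, B), ⟨hA, hB⟩, hy⟩
  refine ⟨Subtype.val ⁻¹' V (A, B), ⟨?_, (hVo _).preimage continuous_subtype_val⟩, h1 hxA,
    fun y hy => hsub (hBU (h2 hy))⟩
  have : (Subtype.val ⁻¹' V (A, B) : Set (Nᶜ : Set X)) = Subtype.val ⁻¹' closure (V (A, B)) := by
    ext y
    simp only [mem_preimage]
    refine ⟨fun h => subset_closure h, fun h => ?_⟩
    by_contra hy
    exact y.2 (hfr ((hVo _).frontier_eq ▸ ⟨h, hy⟩))
  rw [this]
  exact isClosed_closure.preimage continuous_subtype_val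

theorem UZ.base {n : ℕ} (h : UZ (n + 1) X) (x : X) (U : Set X) (hU : U ∈ 𝓝 x) :
    ∃ V : Set X, IsOpen V ∧ x ∈ V ∧ V ⊆ U ∧ UZ n (frontier V) := by
  rw [← uset_univ_iff] at h
  obtain ⟨Z, hZ, hn⟩ := h.exists_zd
  obtain ⟨V, hVo, hxV, hVU, hVZ⟩ := hZ.partition_nhds x U hU
  refine ⟨V, hVo, hxV, subset_closure.trans hVU, uz_coe_iff.2 (hn.mono ?_)⟩
  exact fun y hy => ⟨trivial, fun hyZ => disjoint_left.1 hVZ hy hyZ⟩

end

/-- The Menger–Urysohn characterization: for any function `ind` satisfying the recursion of the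
small inductive dimension (shifted by one), `ind n α` holds iff `α` is a union of `n`
zero-dimensional subspaces. -/
theorem ind_iff_uz (ind : ℕ → (α : Type) → [TopologicalSpace α] → Prop)
    (h : ∀ (α : Type) [TopologicalSpace α],
        (ind 0 α ↔ IsEmpty α) ∧
        ∀ k : ℕ, (ind (k + 1) α ↔
          ∀ x : α, ∀ U ∈ nhds x, ∃ V : Set α,
            IsOpen V ∧ x ∈ V ∧ V ⊆ U ∧ ind k ↥(frontier V))) (n : ℕ) :
    ∀ (α : Type) [TopologicalSpace α] [SecondCountableTopology α] [MetrizableSpace α],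
      ind n α ↔ UZ n α := by
  induction n with
  | zero =>
    intro α _ _ _
    rw [(h α).1]
    constructor
    · intro hα
      exact ⟨fun _ => ∅, by ext x; exact hα.elim x, fun i => i.elim0⟩
    · rintro ⟨A, hA, -⟩
      have : (univ : Set α) = ∅ := by rw [← hA]; simp
      exact univ_eq_empty_iff.1 this
  | succ n ih =>
    intro α _ _ _
    rw [(h α).2]
    constructor
    · intro H
      apply UZ.of_base
      intro x U hU
      obtain ⟨V, h1, h2, h3, h4⟩ := H x U hU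
      exact ⟨V, h1, h2, h3, (ih _).1 h4⟩
    · intro H x U hU
      obtain ⟨V, h1, h2, h3, h4⟩ := H.base x U hU
      exact ⟨V, h1, h2, h3, (ih _).2 h4⟩

theorem uz_one_iff_zd {α : Type*} [TopologicalSpace α] : UZ 1 α ↔ ZD α := by
  constructor
  · rintro ⟨A, hA, hZ⟩
    have hA0 : A 0 = univ := by
      rw [← hA]; ext x; simp
    have h1 : ZD (univ : Set α) := hA0 ▸ hZ 0
    exact h1.of_isInducing (f := fun x => (⟨x, trivial⟩ : (univ : Set α)))
      (Homeomorph.Set.univ α).symm.isInducing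
  · intro h
    exact ⟨fun _ => univ, iUnion_const _, fun _ => h.of_isInducing IsInducing.subtypeVal⟩

end Pool.Agent.H61
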