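import Mathlib

set_option autoImplicit false

open Set Topology TopologicalSpace Filter

namespace Pool.Agent.H61

/-- A Gδ subset of a Polish space is Polish. -/
theorem polishSpace_of_isGδ {X : Type*} [TopologicalSpace X] [PolishSpace X] {G : Set X}
    (hG : IsGδ G) : PolishSpace G := by
  obtain ⟨U, hUo, hU⟩ := hG.eq_iInter_nat
  have : ∀ n, PolishSpace (U n) := fun n => (hUo n).polishSpace
  let f : G → (∀ n, U n) := fun x n => ⟨x.1, mem_iInter.1 (hU ▸ x.2 : x.1 ∈ ⋂ n, U n) n⟩
  have hfc : Continuous f := continuous_pi fun n => continuous_subtype_val.subtype_mk _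
  have hfe : IsEmbedding f := by
    have h1 : IsInducing ((fun y : (∀ n, U n) => (y 0 : X)) ∘ f) := by
      have : ((fun y : (∀ n, U n) => (y 0 : X)) ∘ f) = Subtype.val := rfl
      rw [this]
      exact IsInducing.subtypeVal
    refine ⟨IsInducing.of_comp hfc
      (continuous_subtype_val.comp (continuous_apply 0)) h1, ?_⟩
    intro x y hxy
    have h2 : (f x 0 : X) = f y 0 := by rw [hxy]
    exact Subtype.ext h2
  have hrange : range f = {y | ∀ n, (y n : X) = y 0} := by
    ext y
    constructor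
    · rintro ⟨x, rfl⟩ n
      rfl
    · intro hy
      have hmem : (y 0 : X) ∈ G := by
        rw [hU]
        refine mem_iInter.2 fun n => ?_
        rw [← hy n]
        exact (y n).2
      refine ⟨⟨(y 0 : X), hmem⟩, ?_⟩
      funext n
      exact Subtype.ext (hy n).symm
  have hclosed : IsClosed (range f) := by
    rw [hrange]
    have : {y : (∀ n, U n) | ∀ n, (y n : X) = y 0} = ⋂ n, {y | (y n : X) = y 0} := by
      ext y; simp
    rw [this]
    exact isClosed_iInter fun n => isClosed_eq
      (continuous_subtype_val.comp (continuous_apply n))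
      (continuous_subtype_val.comp (continuous_apply 0))
  exact (IsClosedEmbedding.mk hfe hclosed).polishSpace

/-- One sided Lavrentiev theorem: an embedding of a subset `A` of a metric space `Y` into a
complete metric space extends to an embedding of a Gδ set containing `A`. -/
theorem exists_gdelta_embedding {Y Z : Type*} [MetricSpace Y] [MetricSpace Z] [CompleteSpace Z]
    (A : Set Y) (f : A → Z) (hf : IsEmbedding f) :
    ∃ (G : Set Y) (hAG : A ⊆ G) (F : G → Z), IsGδ G ∧ IsEmbedding F ∧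
      ∀ a : A, F ⟨a, hAG a.2⟩ = f a := by
  -- the open sets `O ε`
  let good : ℝ → Set Y → Prop := fun ε U => ∃ δ > 0,
    (∀ a b : A, (a : Y) ∈ U → (b : Y) ∈ U → dist (f a) (f b) < ε) ∧
    (∀ a b : A, (a : Y) ∈ U → dist (f a) (f b) < δ → dist (a : Y) b < ε)
  let O : ℝ → Set Y := fun ε => ⋃ U ∈ {U : Set Y | IsOpen U ∧ good ε U}, U
  have hOo : ∀ ε, IsOpen (O ε) := fun ε => isOpen_biUnion fun U hU => hU.1
  have hAO : ∀ ε, 0 < ε → A ⊆ O ε := by
    intro ε hε a₀ ha₀
    -- continuity of the inverse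
    have h1 : ∃ δ₀ > 0, ∀ b : A, dist (f ⟨a₀, ha₀⟩) (f b) < δ₀ → dist a₀ (b : Y) < ε / 2 := by
      have hn : {b : A | dist a₀ (b : Y) < ε / 2} ∈ 𝓝 (⟨a₀, ha₀⟩ : A) := by
        have : {b : A | dist a₀ (b : Y) < ε / 2} = Metric.ball (⟨a₀, ha₀⟩ : A) (ε / 2) := by
          ext b
          simp [Metric.mem_ball, dist_comm, Subtype.dist_eq]
        rw [this]
        exact Metric.ball_mem_nhds _ (by positivity)
      rw [hf.isInducing.nhds_eq_comap, mem_comap] at hn
      obtain ⟨t, ht, hts⟩ := hn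
      obtain ⟨δ, hδ, hδt⟩ := Metric.mem_nhds_iff.1 ht
      refine ⟨δ, hδ, fun b hb => ?_⟩
      exact hts (hδt (by rw [Metric.mem_ball, dist_comm]; exact hb))
    obtain ⟨δ₀, hδ₀, hinv⟩ := h1
    have h2 : ∃ U : Set Y, IsOpen U ∧ a₀ ∈ U ∧ ∀ b : A, (b : Y) ∈ U →
        dist (f ⟨a₀, ha₀⟩) (f b) < min (δ₀ / 2) (ε / 2) := by
      have hc := hf.continuous.continuousAt (x := (⟨a₀, ha₀⟩ : A))
      have hn : f ⁻¹' Metric.ball (f ⟨a₀, ha₀⟩) (min (δ₀ / 2) (ε / 2)) ∈ 𝓝 (⟨a₀, ha₀⟩ : A) :=
        hc (Metric.ball_mem_nhds _ (by positivity))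
      rw [nhds_subtype_eq_comap, mem_comap] at hn
      obtain ⟨t, ht, hts⟩ := hn
      obtain ⟨U, hUt, hUo, haU⟩ := mem_nhds_iff.1 ht
      refine ⟨U, hUo, haU, fun b hb => ?_⟩
      have := hts (a := b) (hUt hb)
      rw [dist_comm]
      exact this
    obtain ⟨U, hUo, haU, hU⟩ := h2
    refine mem_iUnion₂.2 ⟨U, ⟨hUo, δ₀ / 2, by positivity, ?_, ?_⟩, haU⟩
    · intro a b ha hb
      have h3 := (hU a ha).trans_le (min_le_right _ _)
      have h4 := (hU b hb).trans_le (min_le_right _ _)
      calc dist (f a) (f b) ≤ dist (f a) (f ⟨a₀, ha₀⟩) + dist (f ⟨a₀, ha₀⟩) (f b) :=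
            dist_triangle _ _ _
        _ < ε := by rw [dist_comm (f a)]; linarith
    · intro a b ha hab
      have h3 := (hU a ha).trans_le (min_le_left _ _)
      have h4 : dist (f ⟨a₀, ha₀⟩) (f b) < δ₀ :=
        (dist_triangle _ (f a) _).trans_lt (by linarith)
      have h5 := hinv b h4
      have h6 := hinv a (by linarith)
      calc dist (a : Y) b ≤ dist (a : Y) a₀ + dist a₀ (b : Y) := dist_triangle _ _ _
        _ < ε := by rw [dist_comm (a : Y)]; linarith
  let G : Set Y := closure A ∩ ⋂ n : ℕ, O (1 / (n + 1))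
  have hGδ : IsGδ G := isClosed_closure.isGδ.inter (IsGδ.iInter_of_isOpen fun n => hOo _)
  have hAG : A ⊆ G := fun a ha => ⟨subset_closure ha, mem_iInter.2 fun n =>
    hAO _ (by positivity) ha⟩
  have hgood : ∀ y ∈ G, ∀ ε > 0, ∃ U : Set Y, IsOpen U ∧ y ∈ U ∧ good ε U := by
    intro y hy ε hε
    obtain ⟨n, hn⟩ := exists_nat_one_div_lt hε
    have hyn := mem_iInter.1 hy.2 n
    obtain ⟨U, ⟨hUo, δ, hδ, h1, h2⟩, hyU⟩ := mem_iUnion₂.1 hyn
    exact ⟨U, hUo, hyU, δ, hδ, fun a b ha hb => (h1 a b ha hb).trans hn,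
      fun a b ha hab => (h2 a b ha hab).trans hn⟩
  -- the dense embedding `A → G`
  let i : A → G := fun a => ⟨a.1, hAG a.2⟩
  have hi : IsDenseInducing i := by
    refine ⟨?_, ?_⟩
    · have h1 : IsInducing (Subtype.val ∘ i) := IsInducing.subtypeVal
      exact IsInducing.subtypeVal.of_comp_iff.1 h1
    · intro y
      rw [closure_subtype]
      have : Subtype.val '' range i = A := by
        rw [← range_comp]
        exact Subtype.range_coe
      rw [this]
      exact y.2.1
  have hlim : ∀ y : G, ∃ c, Tendsto f (comap i (𝓝 y)) (𝓝 c) := by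
    intro y
    have : NeBot (comap i (𝓝 y)) := hi.comap_nhds_neBot y
    have hc : Cauchy (map f (comap i (𝓝 y))) := by
      rw [Metric.cauchy_iff]
      refine ⟨inferInstance, fun ε hε => ?_⟩
      obtain ⟨U, hUo, hyU, δ, hδ, h1, h2⟩ := hgood y y.2 ε hε
      refine ⟨f '' {a | (a : Y) ∈ U}, ?_, ?_⟩
      · apply image_mem_map
        refine mem_comap.2 ⟨Subtype.val ⁻¹' U, ?_, fun a ha => ha⟩
        exact (hUo.preimage continuous_subtype_val).mem_nhds hyU
      · rintro _ ⟨a, ha, rfl⟩ _ ⟨b, hb, rfl⟩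
        exact h1 a b ha hb
    exact CompleteSpace.complete hc
  let F : G → Z := hi.extend f
  have hFc : Continuous F := hi.continuous_extend hlim
  have hFi : ∀ a, F (i a) = f a := fun a => hi.extend_eq hf.continuous a
  -- key estimate for the inverse
  have hkey : ∀ y : G, ∀ ε > 0, ∃ δ > 0, ∀ y' : G, dist (F y) (F y') < δ → dist (y : Y) y' < ε := by
    intro y ε hε
    obtain ⟨U, hUo, hyU, δ, hδ, h1, h2⟩ := hgood y y.2 (ε / 3) (by positivity)
    refine ⟨δ / 3, by positivity, fun y' hyy' => ?_⟩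
    -- approximations
    have happ : ∀ (w : G) (V : Set Y), IsOpen V → (w : Y) ∈ V → ∃ a : A, (a : Y) ∈ V ∧
        dist (F w) (f a) < δ / 3 ∧ dist (w : Y) a < ε / 3 := by
      intro w V hVo hwV
      have hn : {g : G | (g : Y) ∈ V ∧ dist (F w) (F g) < δ / 3 ∧ dist (w : Y) g < ε / 3} ∈ 𝓝 w := by
        refine inter_mem ((hVo.preimage continuous_subtype_val).mem_nhds hwV) (inter_mem ?_ ?_)
        · have : IsOpen {g : G | dist (F w) (F g) < δ / 3} :=
            isOpen_lt (continuous_const.dist hFc) continuous_const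
          exact this.mem_nhds (by simp; positivity)
        · have : IsOpen {g : G | dist (w : Y) g < ε / 3} :=
            isOpen_lt (continuous_const.dist continuous_subtype_val) continuous_const
          exact this.mem_nhds (by simp; positivity)
      obtain ⟨_, hx, a, rfl⟩ := (mem_closure_iff_nhds.1 (hi.dense w)) _ hn
      refine ⟨a, hx.1, ?_, hx.2.2⟩
      rw [← hFi a]
      exact hx.2.1
    obtain ⟨a, haU, ha1, ha2⟩ := happ y U hUo hyU
    obtain ⟨b, -, hb1, hb2⟩ := happ y' univ isOpen_univ trivial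
    have h3 : dist (f a) (f b) < δ := by
      calc dist (f a) (f b) ≤ dist (f a) (F y) + dist (F y) (F y') + dist (F y') (f b) :=
            dist_triangle4 _ _ _ _
        _ < δ := by rw [dist_comm (f a)]; linarith
    have h4 := h2 a b haU h3
    calc dist (y : Y) y' ≤ dist (y : Y) a + dist (a : Y) b + dist (b : Y) y' :=
          dist_triangle4 _ _ _ _
      _ < ε := by rw [dist_comm (b : Y)]; linarith
  refine ⟨G, hAG, F, hGδ, ⟨?_, ?_⟩, hFi⟩
  · rw [isInducing_iff_nhds]
    intro y
    apply le_antisymm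
    · exact hFc.continuousAt.le_comap
    · intro s hs
      obtain ⟨ε, hε, hεs⟩ := Metric.mem_nhds_iff.1 hs
      obtain ⟨δ, hδ, hkey'⟩ := hkey y ε hε
      refine mem_comap.2 ⟨Metric.ball (F y) δ, Metric.ball_mem_nhds _ hδ, fun y' hy' => hεs ?_⟩
      rw [Metric.mem_ball, dist_comm, Subtype.dist_eq]
      apply hkey'
      rw [dist_comm]
      exact hy'
  · intro y y' hyy'
    apply Subtype.ext
    apply eq_of_forall_dist_le
    intro ε hε
    obtain ⟨δ, hδ, hkey'⟩ := hkey y ε hε
    exact (hkey' y' (by rw [hyy', dist_self]; exact hδ)).le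

/-- Reduction for `Gδ` covers: finitely many (`n + 1`) `Gδ` sets covering `R` can be enlarged to
`Gδ` sets covering the whole space without changing their traces on `R`. -/
theorem exists_gdelta_cover {Y : Type*} [TopologicalSpace Y] [MetrizableSpace Y] {n : ℕ}
    (G : Fin (n + 1) → Set Y) (hG : ∀ i, IsGδ (G i)) (R : Set Y) (hR : R ⊆ ⋃ i, G i) :
    ∃ G' : Fin (n + 1) → Set Y, (∀ i, IsGδ (G' i)) ∧ (⋃ i, G' i) = univ ∧
      ∀ i, G' i ∩ R = G i ∩ R := by
  classical
  let := metrizableSpaceMetric Y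
  -- closed approximations of the complements
  have h1 : ∀ i, ∃ C : ℕ → Set Y, (∀ m, IsClosed (C m)) ∧ Monotone C ∧ (⋃ m, C m) = (G i)ᶜ := by
    intro i
    obtain ⟨U, hUo, hU⟩ := (hG i).eq_iInter_nat
    refine ⟨fun m => ⋃ k ∈ Finset.range (m + 1), (U k)ᶜ, fun m =>
      isClosed_biUnion_finset fun k _ => (hUo k).isClosed_compl, ?_, ?_⟩
    · intro a b hab
      apply biUnion_subset_biUnion_left
      intro k hk
      simp only [Finset.coe_range, mem_Iio] at hk ⊢
      omega
    · rw [hU, compl_iInter]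
      ext x
      simp only [mem_iUnion, Finset.mem_range, exists_prop]
      constructor
      · rintro ⟨m, k, -, hk⟩
        exact ⟨k, hk⟩
      · rintro ⟨k, hk⟩
        exact ⟨k, k, by omega, hk⟩
  choose C hCc hCm hCu using h1
  -- shifted sets
  let D : Fin (n + 1) → ℕ → Set Y := fun l m => match m with
    | 0 => ∅
    | k + 1 => C l k
  have hDc : ∀ l m, IsClosed (D l m) := by
    intro l m
    cases m with
    | zero => exact isClosed_empty
    | succ k => exact hCc l k
  -- removed part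
  let T : Fin (n + 1) → Fin (n + 1) → ℕ → Set Y := fun i l m =>
    if l < i then C i m \ C l m else if i < l then C i m \ D l m else ∅
  have hTG : ∀ i l m, IsGδ (T i l m)ᶜ := by
    intro i l m
    have hgen : ∀ P Q : Set Y, IsClosed P → IsClosed Q → IsGδ (P \ Q)ᶜ := by
      intro P Q hP hQ
      have : (P \ Q)ᶜ = Pᶜ ∪ Q := by
        ext x; simp only [mem_compl_iff, Set.mem_sdiff, mem_union]; tauto
      rw [this]
      exact hP.isOpen_compl.isGδ.union hQ.isGδ
    simp only [T]
    split_ifs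
    · exact hgen _ _ (hCc _ _) (hCc _ _)
    · exact hgen _ _ (hCc _ _) (hDc _ _)
    · simp [IsGδ.univ]
  have hTsub : ∀ i l m, T i l m ⊆ (G i)ᶜ := by
    intro i l m x hx
    rw [← hCu i]
    simp only [T] at hx
    split_ifs at hx
    · exact mem_iUnion.2 ⟨m, hx.1⟩
    · exact mem_iUnion.2 ⟨m, hx.1⟩
    · exact hx.elim
  refine ⟨fun i => ⋂ p : Fin (n + 1) × ℕ, (T i p.1 p.2)ᶜ, fun i => IsGδ.iInter fun p => hTG _ _ _,
    ?_, fun i => ?_⟩
  · rw [eq_univ_iff_forall]
    intro x
    by_contra hx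
    simp only [mem_iUnion, mem_iInter, mem_compl_iff, not_exists, not_forall, not_not] at hx
    -- hx : ∀ i, ∃ p, x ∈ T i p.1 p.2
    have hxC : ∀ i, ∃ m, x ∈ C i m := by
      intro i
      obtain ⟨p, hp⟩ := hx i
      have := hTsub _ _ _ hp
      rw [← hCu i] at this
      exact mem_iUnion.1 this
    let φ : Fin (n + 1) → ℕ := fun i => Nat.find (hxC i)
    have hφ : ∀ i, x ∈ C i (φ i) := fun i => Nat.find_spec (hxC i)
    have hφ' : ∀ i m, x ∈ C i m → φ i ≤ m := fun i m h => Nat.find_min' (hxC i) h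
    obtain ⟨i, -, hi⟩ := Finset.exists_max_image (Finset.univ : Finset (Fin (n + 1)))
      (fun i => toLex (φ i, i)) ⟨0, Finset.mem_univ _⟩
    obtain ⟨⟨l, m⟩, hp⟩ := hx i
    have hle := hi l (Finset.mem_univ _)
    rw [Prod.Lex.toLex_le_toLex] at hle
    simp only [T] at hp
    split_ifs at hp with h1 h2
    · -- l < i
      have h3 := hφ' i m hp.1
      have h4 : ¬ φ l ≤ m := fun h => hp.2 (hCm l h (hφ l))
      rcases hle with h | h
      · simp at h; omega
      · simp at h; omega
    · have h3 := hφ' i m hp.1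
      have h4 : m ≤ φ l := by
        by_contra hlt
        push Not at hlt
        obtain ⟨k, rfl⟩ : ∃ k, m = k + 1 := ⟨m - 1, by omega⟩
        exact hp.2 (hCm l (by omega : φ l ≤ k) (hφ l))
      rcases hle with h | h
      · simp at h; omega
      · simp at h
        have := h.2
        exact absurd h2 (not_lt.2 this)
    · exact hp
  · apply Subset.antisymm
    · rintro x ⟨hx, hxR⟩
      refine ⟨?_, hxR⟩
      by_contra hxG
      obtain ⟨l, hl⟩ := mem_iUnion.1 (hR hxR)
      have hxC : x ∈ ⋃ m, C i m := by rw [hCu]; exact hxG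
      obtain ⟨m, hm⟩ := mem_iUnion.1 hxC
      have hnl : ∀ m, x ∉ C l m := by
        intro m hm
        have : x ∈ ⋃ m, C l m := mem_iUnion.2 ⟨m, hm⟩
        rw [hCu] at this
        exact this hl
      have hil : i ≠ l := by
        rintro rfl
        exact hxG hl
      have hnot := mem_iInter.1 hx (l, m)
      apply hnot
      simp only [T]
      rcases lt_or_gt_of_ne hil with h | h
      · rw [if_neg (not_lt.2 h.le), if_pos h]
        refine ⟨hm, ?_⟩
        cases m with
        | zero => exact fun h => h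
        | succ k => exact hnl k
      · rw [if_pos h]
        exact ⟨hm, hnl m⟩
    · rintro x ⟨hx, hxR⟩
      refine ⟨mem_iInter.2 fun p hp => ?_, hxR⟩
      exact hTsub _ _ _ hp hx

end Pool.Agent.H61
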